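import Mathlib

/-!
# MP_0b3830_co: excluding `K_{2,3,...,3}` does not bound the number of positive eigenvalues

The question asks whether, for every `n ≥ 1` and every connected graph `G`, all weighted distance
matrices of `G` have at most `n` positive eigenvalues exactly when `G` has no minor `K_{2,3,...,3}`
with `n` threes.  We show that this fails for every `n ≥ 2`, and badly: for every `N` there is a
`3`-connected graph without a `K_{2,3,...,3}` minor (already without a `K_{2,3,3}` minor) and a
weighting for which the distance matrix has at least `N` positive eigenvalues.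

The graph consists of `N` copies of `K_7` which share a triangle `{c, h, h'}`.  The weights are
chosen such that the metric induced on the graph without `h`, `h'` is the one of `N` copies of
`K_{2,3}` glued together at the vertex `c`.
-/

set_option autoImplicit false

open scoped BigOperators Matrix
open Finset

namespace Pool.Agent.Results.MP_0b3830_co.Disproof

/-- the length of a walk for the edge weights `φ` -/
noncomputable def len {V : Type} {G : SimpleGraph V} (φ : Sym2 V → ℝ) {u v : V}
    (p : G.Walk u v) : ℝ := (p.edges.map φ).sum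

/-- the weighted distance matrix: the entry `(u, v)` is the least length of a path from `u` to `v`
(the infimum over the paths, which for a finite connected graph is a minimum over a finite nonempty
set) -/
noncomputable def distMatrix {V : Type} (G : SimpleGraph V) (φ : Sym2 V → ℝ) : Matrix V V ℝ :=
  Matrix.of fun u v => ⨅ p : G.Path u v, len φ p.1

/-- the number of positive eigenvalues of a real symmetric matrix, counted with multiplicity: the
number of positive real roots of the characteristic polynomial -/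
noncomputable def posEig {V : Type} [Fintype V] [DecidableEq V] (A : Matrix V V ℝ) : ℕ :=
  Multiset.countP (fun t => 0 < t) A.charpoly.roots

/-- `H` is a minor of `G`: there are pairwise disjoint branch sets `β w` in `G`, inducing connected
subgraphs, such that branch sets of adjacent vertices of `H` are joined by an edge of `G` -/
def HasMinor {W V : Type} (H : SimpleGraph W) (G : SimpleGraph V) : Prop :=
  ∃ β : W → Set V, (∀ w, (G.induce (β w)).Connected) ∧
    (∀ a b, a ≠ b → Disjoint (β a) (β b)) ∧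
    ∀ a b, H.Adj a b → ∃ x ∈ β a, ∃ y ∈ β b, G.Adj x y

/-- `K_{2,3,...,3}` with `n` threes: the complete multipartite graph with one part of size `2` and
`n` parts of size `3` -/
abbrev K23 (n : ℕ) : SimpleGraph (Σ i : Fin (n + 1), Fin (if i = 0 then 2 else 3)) :=
  SimpleGraph.completeMultipartiteGraph fun i : Fin (n + 1) => Fin (if i = 0 then 2 else 3)

/-- `G` is `k`-connected: it has more than `k` vertices and stays connected after the deletion of
fewer than `k` vertices -/
def KConnected {V : Type} [Fintype V] (k : ℕ) (G : SimpleGraph V) : Prop :=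
  k < Fintype.card V ∧ ∀ S : Finset V, S.card < k → (G.induce {v | v ∉ S}).Connected

/-! ### Positive eigenvalues from a positive definite subspace -/

section Spectral

variable {V : Type} [Fintype V] [DecidableEq V]

theorem posEig_eq (A : Matrix V V ℝ) (hA : A.IsHermitian) :
    posEig A = Fintype.card {i // 0 < hA.eigenvalues i} := by
  unfold posEig
  rw [hA.roots_charpoly_eq_eigenvalues, Multiset.countP_map, Fintype.card_subtype]
  rfl

theorem quad_eq (A : Matrix V V ℝ) (hA : A.IsHermitian) (y : V → ℝ) :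
    y ⬝ᵥ (A *ᵥ y) = ∑ j, hA.eigenvalues j * (y ⬝ᵥ ⇑(hA.eigenvectorBasis j)) ^ 2 := by
  have hy : y = ∑ j, (y ⬝ᵥ ⇑(hA.eigenvectorBasis j)) • (⇑(hA.eigenvectorBasis j) : V → ℝ) := by
    have h := hA.eigenvectorBasis.sum_repr' (WithLp.toLp 2 y)
    have h2 := congrArg (fun z : EuclideanSpace ℝ V => (z.ofLp : V → ℝ)) h
    simp only [WithLp.ofLp_sum, WithLp.ofLp_smul] at h2
    refine h2.symm.trans (Finset.sum_congr rfl fun j _ => ?_)
    congr 1
  have hAy : A *ᵥ y = ∑ j, (y ⬝ᵥ ⇑(hA.eigenvectorBasis j)) •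
      (hA.eigenvalues j • (⇑(hA.eigenvectorBasis j) : V → ℝ)) := by
    conv_lhs => rw [hy]
    rw [Matrix.mulVec_sum]
    refine Finset.sum_congr rfl fun j _ => ?_
    rw [Matrix.mulVec_smul, hA.mulVec_eigenvectorBasis]
  rw [hAy, dotProduct_sum]
  refine Finset.sum_congr rfl fun j _ => ?_
  rw [dotProduct_smul, dotProduct_smul]
  simp only [smul_eq_mul]
  ring

theorem le_posEig (A : Matrix V V ℝ) (hA : A.IsHermitian) {m : ℕ} (x : Fin m → V → ℝ)
    (h : ∀ c : Fin m → ℝ, c ≠ 0 → 0 < (∑ i, c i • x i) ⬝ᵥ (A *ᵥ ∑ i, c i • x i)) :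
    m ≤ posEig A := by
  rw [posEig_eq A hA]
  by_contra hlt
  push Not at hlt
  let T : (Fin m → ℝ) →ₗ[ℝ] ({i // 0 < hA.eigenvalues i} → ℝ) :=
    { toFun := fun c j => (∑ i, c i • x i) ⬝ᵥ ⇑(hA.eigenvectorBasis j.1)
      map_add' := by
        intro c d
        funext j
        simp only [Pi.add_apply, add_smul, Finset.sum_add_distrib, add_dotProduct]
      map_smul' := by
        intro r c
        funext j
        simp only [Pi.smul_apply, smul_eq_mul, RingHom.id_apply, mul_smul]
        rw [← Finset.smul_sum, smul_dotProduct, smul_eq_mul] }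
  have hk : LinearMap.ker T ≠ ⊥ := by
    apply LinearMap.ker_ne_bot_of_finrank_lt
    simpa using hlt
  obtain ⟨c, hc, hc0⟩ := Submodule.exists_mem_ne_zero_of_ne_bot hk
  have hpos := h c hc0
  rw [quad_eq A hA] at hpos
  have hle : ∑ j, hA.eigenvalues j *
      ((∑ i, c i • x i) ⬝ᵥ ⇑(hA.eigenvectorBasis j)) ^ 2 ≤ 0 := by
    refine Finset.sum_nonpos fun j _ => ?_
    by_cases hj : 0 < hA.eigenvalues j
    · have h0 : (∑ i, c i • x i) ⬝ᵥ ⇑(hA.eigenvectorBasis j) = 0 :=
        congrFun (LinearMap.mem_ker.mp hc) ⟨j, hj⟩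
      rw [h0]
      simp
    · exact mul_nonpos_of_nonpos_of_nonneg (not_lt.mp hj) (sq_nonneg _)
  linarith

end Spectral

/-! ### The graph -/

/-- the vertices: the three hubs and `m` blocks of four vertices -/
abbrev Vm (m : ℕ) : Type := Fin 3 ⊕ (Fin m × Fin 4)

/-- the block of a vertex, `none` for the hubs -/
def blk {m : ℕ} : Vm m → Option (Fin m)
  | Sum.inl _ => none
  | Sum.inr x => some x.1

/-- `m` copies of `K_7` which share the triangle of the hubs -/
def Gm (m : ℕ) : SimpleGraph (Vm m) where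
  Adj x y := x ≠ y ∧ (blk x = none ∨ blk y = none ∨ blk x = blk y)
  symm := ⟨fun x y h => ⟨h.1.symm, by tauto⟩⟩
  loopless := ⟨fun x h => h.1 rfl⟩

/-- distance to `c = inl 0` -/
def pd : Fin 4 → ℕ := ![1, 1, 2, 2]

/-- distance inside a block -/
def qd (a b : Fin 4) : ℕ := if a = b then 0 else if (a.val < 2 ↔ b.val < 2) then 2 else 1

/-- the metric -/
def dl {m : ℕ} : Vm m → Vm m → ℕ
  | Sum.inl i, Sum.inl j => if i = j then 0 else 2
  | Sum.inl i, Sum.inr x => if i = 0 then pd x.2 else 2
  | Sum.inr x, Sum.inl i => if i = 0 then pd x.2 else 2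
  | Sum.inr x, Sum.inr y => if x.1 = y.1 then qd x.2 y.2 else pd x.2 + pd y.2

theorem pd_bd (a : Fin 4) : 1 ≤ pd a ∧ pd a ≤ 2 := by
  revert a; decide

theorem qd_comm (a b : Fin 4) : qd a b = qd b a := by
  revert a b; decide

theorem qd_tri (a b c : Fin 4) : qd a c ≤ qd a b + qd b c := by
  revert a b c; decide

theorem qd_le (a b : Fin 4) : qd a b ≤ 2 ∧ qd a b ≤ pd a + pd b ∧ pd a ≤ qd a b + pd b ∧
    pd b ≤ qd a b + pd a := by
  revert a b; decide

theorem qd_pos (a b : Fin 4) (h : a ≠ b) : 0 < qd a b := by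
  revert a b; decide

theorem dl_self {m : ℕ} (x : Vm m) : dl x x = 0 := by
  rcases x with i | x <;> simp [dl, qd]

theorem dl_comm {m : ℕ} (x y : Vm m) : dl x y = dl y x := by
  rcases x with i | x <;> rcases y with j | y
  · simp only [dl, eq_comm]
  · simp only [dl]
  · simp only [dl]
  · simp only [dl]
    by_cases h : x.1 = y.1
    · rw [if_pos h, if_pos h.symm, qd_comm]
    · rw [if_neg h, if_neg (Ne.symm h), add_comm]

theorem dl_tri {m : ℕ} (x y z : Vm m) : dl x z ≤ dl x y + dl y z := by
  rcases x with i | ⟨i, a⟩ <;> rcases y with j | ⟨j, b⟩ <;> rcases z with k | ⟨k, c⟩ <;>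
    simp only [dl]
  · split_ifs <;> omega
  · have := pd_bd c
    split_ifs <;> omega
  · have := pd_bd b
    split_ifs <;> omega
  · have := pd_bd c
    have := pd_bd b
    have := qd_le b c
    split_ifs <;> omega
  · have := pd_bd a
    split_ifs <;> omega
  · have := pd_bd a
    have := pd_bd c
    have := qd_le a c
    split_ifs <;> omega
  · have := pd_bd a
    have := pd_bd b
    have := qd_le a b
    split_ifs <;> omega
  · have := pd_bd a
    have := pd_bd b
    have := pd_bd c
    have := qd_le a b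
    have := qd_le b c
    have := qd_le a c
    have := qd_tri a b c
    split_ifs <;> omega

theorem dl_pos {m : ℕ} (x y : Vm m) (h : x ≠ y) : 0 < dl x y := by
  rcases x with i | ⟨i, a⟩ <;> rcases y with j | ⟨j, b⟩ <;> simp only [dl]
  · have : i ≠ j := fun e => h (by rw [e])
    rw [if_neg this]
    norm_num
  · have := pd_bd b
    split_ifs <;> omega
  · have := pd_bd a
    split_ifs <;> omega
  · have h1 := pd_bd a
    split_ifs with h2
    · apply qd_pos
      intro e
      exact h (by rw [h2, e])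
    · omega

/-- the weights -/
noncomputable def wt (m : ℕ) : Sym2 (Vm m) → ℝ :=
  Sym2.lift ⟨fun x y => (dl x y : ℝ), fun x y => by simp only [dl_comm x y]⟩

theorem wt_mk {m : ℕ} (x y : Vm m) : wt m s(x, y) = dl x y := rfl

theorem wt_pos {m : ℕ} (e : Sym2 (Vm m)) (he : e ∈ (Gm m).edgeSet) : 0 < wt m e := by
  induction e using Sym2.ind with
  | _ x y =>
    rw [SimpleGraph.mem_edgeSet] at he
    rw [wt_mk]
    exact_mod_cast dl_pos x y he.1

theorem le_len {m : ℕ} {x y : Vm m} (p : (Gm m).Walk x y) : (dl x y : ℝ) ≤ len (wt m) p := by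
  induction p with
  | nil => simp [len, dl_self]
  | @cons u v w h p ih =>
    have h1 : (dl u w : ℝ) ≤ dl u v + dl v w := by exact_mod_cast dl_tri u v w
    have h2 : len (wt m) (SimpleGraph.Walk.cons h p) = dl u v + len (wt m) p := by
      unfold len
      rw [SimpleGraph.Walk.edges_cons, List.map_cons, List.sum_cons, wt_mk]
    rw [h2]
    linarith

theorem exists_path {m : ℕ} (x y : Vm m) : ∃ p : (Gm m).Path x y, len (wt m) p.1 = dl x y := by
  by_cases hxy : x = y
  · subst hxy
    exact ⟨SimpleGraph.Path.nil, by simp [len, dl_self, SimpleGraph.Path.nil]⟩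
  by_cases hadj : (Gm m).Adj x y
  · exact ⟨SimpleGraph.Path.singleton hadj, by
      simp [len, SimpleGraph.Path.singleton, wt_mk]⟩
  · rcases x with i | ⟨i, a⟩
    · exact absurd ⟨hxy, Or.inl rfl⟩ hadj
    rcases y with j | ⟨j, b⟩
    · exact absurd ⟨hxy, Or.inr (Or.inl rfl)⟩ hadj
    have hij : i ≠ j := by
      intro e
      exact hadj ⟨hxy, Or.inr (Or.inr (by simp [blk, e]))⟩
    have h1 : (Gm m).Adj (Sum.inr (i, a)) (Sum.inl 0) := ⟨by simp, Or.inr (Or.inl rfl)⟩
    have h2 : (Gm m).Adj (Sum.inl 0) (Sum.inr (j, b)) := ⟨by simp, Or.inl rfl⟩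
    refine ⟨⟨SimpleGraph.Walk.cons h1 (SimpleGraph.Walk.cons h2 SimpleGraph.Walk.nil), ?_⟩, ?_⟩
    · rw [SimpleGraph.Walk.isPath_def]
      simp [hij]
    · simp [len, wt_mk, dl, hij]

theorem distMatrix_eq (m : ℕ) : distMatrix (Gm m) (wt m) = Matrix.of fun x y => (dl x y : ℝ) := by
  ext x y
  simp only [distMatrix, Matrix.of_apply]
  obtain ⟨p, hp⟩ := exists_path x y
  have : Nonempty ((Gm m).Path x y) := ⟨p⟩
  apply le_antisymm
  · rw [← hp]
    exact ciInf_le ⟨(dl x y : ℝ), by rintro _ ⟨q, rfl⟩; exact le_len q.1⟩ p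
  · exact le_ciInf fun q => le_len q.1

theorem isHermitian (m : ℕ) : (distMatrix (Gm m) (wt m)).IsHermitian := by
  rw [distMatrix_eq]
  ext x y
  simp [Matrix.conjTranspose_apply, dl_comm]

/-! ### The positive definite subspace -/

/-- the values of the test vectors on a block -/
def sv : Fin 4 → ℝ := ![3, 3, -2, -2]

/-- the test vectors -/
noncomputable def xv {m : ℕ} (i : Fin m) : Vm m → ℝ
  | Sum.inl k => if k = 0 then -2 else 0
  | Sum.inr y => if y.1 = i then sv y.2 else 0

/-- the images of the test vectors -/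
noncomputable def gv {m : ℕ} (i : Fin m) : Vm m → ℝ
  | Sum.inl k => if k = 0 then -2 else 0
  | Sum.inr y => if y.1 = i ∧ y.2.val < 2 then 0 else -2

theorem mulVec_xv {m : ℕ} (i : Fin m) : (distMatrix (Gm m) (wt m)) *ᵥ (xv i) = gv i := by
  rw [distMatrix_eq]
  funext u
  simp only [Matrix.mulVec, dotProduct, Matrix.of_apply]
  rw [Fintype.sum_sum_type, Fintype.sum_prod_type]
  simp only [xv, mul_ite, mul_zero, Finset.sum_ite_irrel, Finset.sum_const_zero,
    Finset.sum_ite_eq', Finset.mem_univ, if_true]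
  rcases u with k | ⟨k, b⟩
  · fin_cases k <;> simp [dl, gv, sv, pd, Fin.sum_univ_succ] <;> norm_num
  · by_cases hk : k = i
    · subst hk
      fin_cases b <;> simp [dl, gv, sv, pd, qd, Fin.sum_univ_succ] <;> norm_num
    · fin_cases b <;> simp [dl, gv, sv, pd, Fin.sum_univ_succ, hk] <;> norm_num

theorem dot_xv {m : ℕ} (i j : Fin m) : (xv j) ⬝ᵥ (gv i) = if i = j then 12 else 0 := by
  simp only [dotProduct]
  rw [Fintype.sum_sum_type, Fintype.sum_prod_type]
  simp only [xv, ite_mul, zero_mul, Finset.sum_ite_irrel, Finset.sum_const_zero,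
    Finset.sum_ite_eq', Finset.mem_univ, if_true]
  by_cases h : i = j
  · subst h
    simp [gv, sv, Fin.sum_univ_succ]
    norm_num
  · simp [gv, sv, Fin.sum_univ_succ, h, Ne.symm h]
    norm_num

theorem pos_def {m : ℕ} (c : Fin m → ℝ) (hc : c ≠ 0) :
    0 < (∑ i, c i • xv i) ⬝ᵥ ((distMatrix (Gm m) (wt m)) *ᵥ ∑ i, c i • xv i) := by
  have e : (∑ i, c i • xv i) ⬝ᵥ ((distMatrix (Gm m) (wt m)) *ᵥ ∑ i, c i • xv i) =
      ∑ i, 12 * c i ^ 2 := by
    rw [Matrix.mulVec_sum, dotProduct_sum]
    refine Finset.sum_congr rfl fun i _ => ?_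
    rw [Matrix.mulVec_smul, mulVec_xv, dotProduct_smul, sum_dotProduct]
    simp only [smul_dotProduct, dot_xv, smul_eq_mul, mul_ite, mul_zero]
    rw [Finset.sum_ite_eq]
    simp
    ring
  rw [e]
  obtain ⟨i, hi⟩ := Function.ne_iff.mp hc
  refine Finset.sum_pos' (fun j _ => by positivity) ⟨i, Finset.mem_univ i, ?_⟩
  have hi' : c i ≠ 0 := hi
  have : 0 < c i ^ 2 := by positivity
  linarith

/-! ### Connectivity -/

theorem exists_hub {m : ℕ} (S : Finset (Vm m)) (hS : S.card < 3) : ∃ i : Fin 3, Sum.inl i ∉ S := by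
  by_contra h
  push Not at h
  have h1 : (Finset.univ.image (fun i : Fin 3 => (Sum.inl i : Vm m))) ⊆ S := by
    intro x hx
    rw [Finset.mem_image] at hx
    obtain ⟨i, -, rfl⟩ := hx
    exact h i
  have h2 := Finset.card_le_card h1
  rw [Finset.card_image_of_injective _ Sum.inl_injective] at h2
  simp at h2
  omega

theorem kconn (m : ℕ) (hm : 1 ≤ m) : KConnected 3 (Gm m) := by
  refine ⟨by simp; omega, fun S hS => ?_⟩
  obtain ⟨i, hi⟩ := exists_hub S hS
  rw [SimpleGraph.connected_iff_exists_forall_reachable]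
  refine ⟨⟨Sum.inl i, hi⟩, fun w => ?_⟩
  by_cases hw : (⟨Sum.inl i, hi⟩ : {v | v ∉ S}) = w
  · rw [hw]
  · apply SimpleGraph.Adj.reachable
    refine ⟨fun e => hw (Subtype.ext e), Or.inl rfl⟩

theorem conn (m : ℕ) : (Gm m).Connected := by
  rw [SimpleGraph.connected_iff_exists_forall_reachable]
  refine ⟨Sum.inl 0, fun w => ?_⟩
  by_cases hw : Sum.inl 0 = w
  · rw [hw]
  · exact SimpleGraph.Adj.reachable ⟨hw, Or.inl rfl⟩

/-! ### The minor -/

theorem blk_const {m : ℕ} (B : Set (Vm m)) (hB : ((Gm m).induce B).Connected)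
    (hh : ∀ i : Fin 3, Sum.inl i ∉ B) (x y : Vm m) (hx : x ∈ B) (hy : y ∈ B) : blk x = blk y := by
  have hne : ∀ z ∈ B, blk z ≠ none := by
    intro z hz
    rcases z with i | z
    · exact absurd hz (hh i)
    · simp [blk]
  have h := hB.preconnected ⟨x, hx⟩ ⟨y, hy⟩
  rw [SimpleGraph.reachable_iff_reflTransGen] at h
  have key : ∀ z : B, Relation.ReflTransGen ((Gm m).induce B).Adj ⟨x, hx⟩ z →
      blk x = blk z.1 := by
    intro z hz
    induction hz with
    | refl => rfl
    | @tail a b _ hab ih =>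
      have hab' : (Gm m).Adj a.1 b.1 := hab
      rcases hab'.2 with h1 | h1 | h1
      · exact absurd h1 (hne _ a.2)
      · exact absurd h1 (hne _ b.2)
      · rw [ih, h1]
  exact key ⟨y, hy⟩ h

theorem no_minor (m n : ℕ) (hn : 2 ≤ n) : ¬ HasMinor (K23 n) (Gm m) := by
  classical
  rintro ⟨β, hconn, hdisj, hadj⟩
  have hne : ∀ w, ∃ x, x ∈ β w := fun w => by
    obtain ⟨x⟩ := (hconn w).nonempty
    exact ⟨x.1, x.2⟩
  have huniq : ∀ (a b) (x : Vm m), x ∈ β a → x ∈ β b → a = b := by
    intro a b x ha hb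
    by_contra hab
    exact Set.disjoint_left.mp (hdisj a b hab) ha hb
  obtain ⟨good, hgood⟩ : ∃ good : Finset (Σ i : Fin (n + 1), Fin (if i = 0 then 2 else 3)),
      good = Finset.univ.filter (fun w => ∀ i : Fin 3, Sum.inl i ∉ β w) := ⟨_, rfl⟩
  -- few branch sets contain a hub
  have hbad : (Finset.univ.filter (fun w => ¬ ∀ i : Fin 3, (Sum.inl i : Vm m) ∉ β w)).card ≤ 3 := by
    have hex : ∀ w ∈ Finset.univ.filter (fun w => ¬ ∀ i : Fin 3, (Sum.inl i : Vm m) ∉ β w),
        ∃ i : Fin 3, (Sum.inl i : Vm m) ∈ β w := by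
      intro w hw
      rw [Finset.mem_filter] at hw
      simpa using hw.2
    choose! f hf using hex
    have := Finset.card_le_card_of_injOn (t := (Finset.univ : Finset (Fin 3))) f
      (fun w _ => Finset.mem_univ _) (by
        intro a ha b hb hab
        have h1 := hf a ha
        have h2 := hf b hb
        rw [hab] at h1
        exact huniq a b _ h1 h2)
    simpa using this
  have hcard : Fintype.card (Σ i : Fin (n + 1), Fin (if i = 0 then 2 else 3)) = 3 * n + 2 := by
    rw [Fintype.card_sigma, Fin.sum_univ_succ]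
    simp [Fin.succ_ne_zero]
    ring
  have hgoodcard : 5 ≤ good.card := by
    have h1 := Finset.card_filter_add_card_filter_not (s := (Finset.univ :
      Finset (Σ i : Fin (n + 1), Fin (if i = 0 then 2 else 3))))
      (fun w => ∀ i : Fin 3, (Sum.inl i : Vm m) ∉ β w)
    rw [Finset.card_univ, hcard] at h1
    rw [hgood]
    omega
  have hg : ∀ w ∈ good, ∀ i : Fin 3, (Sum.inl i : Vm m) ∉ β w := by
    intro w hw
    rw [hgood, Finset.mem_filter] at hw
    exact hw.2
  -- all good branch sets lie in the same block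
  have hsame1 : ∀ a ∈ good, ∀ b ∈ good, a.1 ≠ b.1 → ∀ x ∈ β a, ∀ y ∈ β b, blk x = blk y := by
    intro a ha b hb hab x hx y hy
    obtain ⟨x', hx', y', hy', h⟩ := hadj a b hab
    have h1 := blk_const (β a) (hconn a) (hg a ha) x x' hx hx'
    have h2 := blk_const (β b) (hconn b) (hg b hb) y y' hy hy'
    rw [h1, h2]
    rcases h.2 with h3 | h3 | h3
    · rcases x' with i | z
      · exact absurd hx' (hg a ha i)
      · simp [blk] at h3
    · rcases y' with i | z
      · exact absurd hy' (hg b hb i)
      · simp [blk] at h3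
    · exact h3
  have hpart : ∀ a, (good.filter (fun w => w.1 = a)).card ≤ 3 := by
    intro a
    have h1 : (good.filter (fun w => w.1 = a)) ⊆
        (Finset.univ : Finset (Fin (if a = 0 then 2 else 3))).image (fun t => ⟨a, t⟩) := by
      rintro ⟨b, t⟩ hb
      rw [Finset.mem_filter] at hb
      obtain rfl : b = a := hb.2
      rw [Finset.mem_image]
      exact ⟨t, Finset.mem_univ _, rfl⟩
    refine (Finset.card_le_card h1).trans (Finset.card_image_le.trans ?_)
    rw [Finset.card_univ, Fintype.card_fin]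
    split_ifs <;> omega
  have hsame : ∀ a ∈ good, ∀ b ∈ good, ∀ x ∈ β a, ∀ y ∈ β b, blk x = blk y := by
    intro a ha b hb x hx y hy
    by_cases hab : a.1 = b.1
    · obtain ⟨w, hw, hwa⟩ : ∃ w ∈ good, w.1 ≠ a.1 := by
        by_contra hno
        push Not at hno
        have : good.filter (fun w => w.1 = a.1) = good := Finset.filter_true_of_mem hno
        have h3 := hpart a.1
        rw [this] at h3
        omega
      obtain ⟨z, hz⟩ := hne w
      rw [hsame1 a ha w hw (Ne.symm hwa) x hx z hz,
        hsame1 b hb w hw (by rw [← hab]; exact Ne.symm hwa) y hy z hz]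
    · exact hsame1 a ha b hb hab x hx y hy
  -- at most four disjoint sets in a block
  choose v hv using hne
  have hrep : ∀ w ∈ good, ∃ t : Fin 4, ∃ i : Fin m, v w = Sum.inr (i, t) := by
    intro w hw
    rcases hvw : v w with i | ⟨i, t⟩
    · have := hv w
      rw [hvw] at this
      exact absurd this (hg w hw i)
    · exact ⟨t, i, rfl⟩
  choose! t ht using hrep
  have hle := Finset.card_le_card_of_injOn (s := good) (t := (Finset.univ : Finset (Fin 4))) t
    (fun w _ => Finset.mem_univ _) (by
      intro a ha b hb hab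
      obtain ⟨i, hi⟩ := ht a ha
      obtain ⟨j, hj⟩ := ht b hb
      have h1 := hsame a ha b hb (v a) (hv a) (v b) (hv b)
      rw [hi, hj] at h1
      simp only [blk, Option.some.injEq] at h1
      have h2 : v a = v b := by rw [hi, hj, h1, hab]
      exact huniq a b (v a) (hv a) (h2 ▸ hv b))
  rw [Finset.card_univ, Fintype.card_fin] at hle
  omega

/-- For every `n ≥ 2` and every `N` there is a finite `3`-connected graph `G` without a
`K_{2,3,...,3}` minor (`n` threes) and a weighting of its edges by positive reals such that the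
weighted distance matrix has at least `N` positive eigenvalues. -/
theorem result : ∀ n : ℕ, 2 ≤ n → ∀ N : ℕ, ∃ (V : Type) (_ : Fintype V) (_ : DecidableEq V)
    (G : SimpleGraph V) (φ : Sym2 V → ℝ), G.Connected ∧ KConnected 3 G ∧ ¬ HasMinor (K23 n) G ∧
      (∀ e ∈ G.edgeSet, 0 < φ e) ∧ N ≤ posEig (distMatrix G φ) := by
  intro n hn N
  refine ⟨Vm (N + 1), inferInstance, inferInstance, Gm (N + 1), wt (N + 1), conn _,
    kconn _ (by omega), no_minor _ n hn, wt_pos, ?_⟩
  have := le_posEig (distMatrix (Gm (N + 1)) (wt (N + 1))) (isHermitian (N + 1)) xv pos_def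
  omega

end Pool.Agent.Results.MP_0b3830_co.Disproof
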